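import Pool.Agent.H33.HC.TB

/-!
# Row GA2C of hcz_modules: the range of the complementary divisors
-/

set_option autoImplicit false

open NumberField Complex Filter Topology MeasureTheory
open scoped ContDiff nonZeroDivisors

namespace Pool.Agent.H20.HC

open Pool.Agent.H33.HC Pool.Agent.H33.HH Pool.Agent.H28.RC Pool.Agent.H37.CV

theorem pf_GA2C (h : Pool.Agent.H33.HH.T_GA2) : T_GA2C := by
  intro W G H hW hG hH
  obtain ⟨C, hC0, hC⟩ := h W G H hW hG hH
  refine ⟨2 * C, by positivity, ?_⟩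
  intro s g x t v hx ht hv hne
  have h1 : Hs H s (‖g‖ ^ 2) ≠ 0 := fun h0 => hne (by rw [h0, zero_mul, zero_mul])
  have h2 : Gs G s (‖g‖ ^ 2 * t) ≠ 0 := fun h0 => hne (by rw [h0, mul_zero, zero_mul])
  have h3 : w1 W (‖g - 1‖ ^ 2 * x / v) ≠ 0 := fun h0 => hne (by rw [h0, ofReal_zero, mul_zero])
  have h4 : H (‖g‖ ^ 2) ≠ 0 := by
    intro h0
    apply h1
    unfold Hs
    rw [h0, ofReal_zero, zero_mul]
  have h5 : G (‖g‖ ^ 2 * t) ≠ 0 ∨ G (‖g‖ ^ 2 * (t / 2)) ≠ 0 := by
    by_contra hcon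
    push Not at hcon
    apply h2
    unfold Gs
    have h6 : ‖g‖ ^ 2 * t / 2 = ‖g‖ ^ 2 * (t / 2) := by ring
    rw [h6, hcon.1, hcon.2, ofReal_zero, mul_zero, sub_zero, zero_div]
  have hxt : 0 < x / t := div_pos hx ht
  rcases h5 with h5 | h5
  · have h6 := hC g x t v hx ht hv (mul_ne_zero (mul_ne_zero h4 h5) h3)
    refine h6.trans ?_
    have : 0 ≤ C * (x / t + x) := by positivity
    linarith
  · have h6 := hC g x (t / 2) v hx (by positivity) hv (mul_ne_zero (mul_ne_zero h4 h5) h3)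
    refine h6.trans ?_
    have h7 : x / (t / 2) = 2 * (x / t) := by
      field_simp
    rw [h7]
    have : 0 ≤ C * x := by positivity
    linarith

end Pool.Agent.H20.HC
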