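import Pool.Agent.H33.HC.TB
import Pool.Agent.H51.HH.IN1

/-!
# Row IN1C of hcz_modules: the sum over `n` with the limit
-/

set_option autoImplicit false

open NumberField Complex Filter Topology MeasureTheory
open scoped ContDiff nonZeroDivisors

namespace Pool.Agent.H20.HC

open Pool.Agent.H33.HC Pool.Agent.H33.HH Pool.Agent.H28.RC Pool.Agent.H37.CV

/-- derivatives of `A(s v) B(t v)` -/
theorem unifC (A B : ℝ → ℂ) (hA : ContDiff ℝ ∞ A) (hB : ContDiff ℝ ∞ B) (a c : ℝ) (k : ℕ)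
    (ha0 : 0 ≤ a) (ha : ∀ j ≤ k, ∀ v, ‖iteratedDeriv j A v‖ ≤ a)
    (hc : ∀ j ≤ k, ∀ v, ‖iteratedDeriv j B v‖ ≤ c)
    (s t : ℝ) (hs : 0 ≤ s) (hs1 : s ≤ 1) (ht : 0 ≤ t) (ht1 : t ≤ 1) :
    ∀ j ≤ k, ∀ u : ℝ, ‖iteratedDeriv j (fun v => A (s * v) * B (t * v)) u‖ ≤
      2 ^ k * (a * c) := by
  have hone : ∀ (F : ℝ → ℂ), ContDiff ℝ ∞ F → ∀ m x : ℝ, (∀ j ≤ k, ∀ v, ‖iteratedDeriv j F v‖ ≤ m) →
      0 ≤ x → x ≤ 1 → ∀ j ≤ k, ∀ u, ‖iteratedDeriv j (fun v => F (x * v)) u‖ ≤ m := by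
    intro F hF m x hm hx hx1 j hj u
    have hj2 : ((j : ℕ∞) : WithTop ℕ∞) ≤ ∞ := by exact_mod_cast le_top
    rw [iteratedDeriv_comp_const_smul (hF.of_le hj2) x]
    simp only
    rw [norm_smul, Real.norm_eq_abs, abs_of_nonneg (pow_nonneg hx j)]
    calc x ^ j * ‖iteratedDeriv j F (x * u)‖ ≤ 1 * ‖iteratedDeriv j F (x * u)‖ :=
          mul_le_mul_of_nonneg_right (pow_le_one₀ hx hx1) (norm_nonneg _)
      _ ≤ m := by
          rw [one_mul]
          exact hm j hj _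
  intro j hj u
  have hAs : ContDiff ℝ ∞ (fun v => A (s * v)) := hA.comp (contDiff_const.mul contDiff_id)
  have hBs : ContDiff ℝ ∞ (fun v => B (t * v)) := hB.comp (contDiff_const.mul contDiff_id)
  have hj' : ((j : ℕ∞) : WithTop ℕ∞) ≤ ∞ := by exact_mod_cast le_top
  rw [iteratedDeriv_fun_mul (hAs.contDiffAt.of_le hj') (hBs.contDiffAt.of_le hj')]
  have hc0 : 0 ≤ c := (norm_nonneg _).trans (hc 0 (Nat.zero_le k) 0)
  refine (norm_sum_le _ _).trans ?_
  calc ∑ i ∈ Finset.range (j + 1), ‖(j.choose i : ℂ) * iteratedDeriv i (fun v => A (s * v)) u *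
        iteratedDeriv (j - i) (fun v => B (t * v)) u‖
      ≤ ∑ i ∈ Finset.range (j + 1), (j.choose i : ℝ) * (a * c) := by
        refine Finset.sum_le_sum fun i hi => ?_
        have hi' := Finset.mem_range.1 hi
        rw [norm_mul, norm_mul, Complex.norm_natCast, mul_assoc]
        exact mul_le_mul_of_nonneg_left (mul_le_mul (hone A hA a s ha hs hs1 i (by omega) u)
          (hone B hB c t hc ht ht1 (j - i) (by omega) u) (norm_nonneg _) ha0)
          (Nat.cast_nonneg _)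
    _ = 2 ^ j * (a * c) := by
        rw [← Finset.sum_mul]
        congr 1
        exact_mod_cast Nat.sum_range_choose j
    _ ≤ 2 ^ k * (a * c) := by
        gcongr
        norm_num

section

variable {K : Type} [Field K] [NumberField K]

open scoped Classical in
theorem sumZ_idS (P : ℝ) (g : Finset (PrI K)) (hg : Cp P (idS g)) (F : ℝ → ℂ) :
    sumZ (K := K) P (fun n => if idS g ∣ n then F (nm n) else 0) =
      sumZ (K := K) P (fun n => F (nS np g * nm n)) := by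
  unfold sumZ
  let φ : NI K → NI K := fun l => ⟨idS g * l.1, mul_ne_zero (Pool.Agent.H44.HH.idS_ne g) l.2⟩
  have hφ : Function.Injective φ := by
    intro l l' h
    have h2 : idS g * l.1 = idS g * l'.1 := congrArg Subtype.val h
    exact Subtype.ext (mul_left_cancel₀ (Pool.Agent.H44.HH.idS_ne g) h2)
  rw [← hφ.tsum_eq]
  · refine tsum_congr fun l => ?_
    show (if Cp P (idS g * l.1) then (if idS g ∣ idS g * l.1 then F (nm (idS g * l.1)) else 0)
      else 0) = _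
    rw [if_pos (dvd_mul_right _ _), Pool.Agent.H44.HH.nm_idS]
    have h1 : Cp P (idS g * l.1) ↔ Cp P l.1 := by
      constructor
      · intro h p hp
        exact h p (p.2.1.mul_le.2 (Or.inr hp))
      · intro h p hp
        rcases p.2.1.mul_le.1 hp with h1 | h1
        · exact hg p h1
        · exact h p h1
    simp only [h1]
  · intro I hI
    have h2 : idS g ∣ I.1 := by
      by_contra h
      refine hI ?_
      simp only [if_neg h, ite_self]
    obtain ⟨l, hl⟩ := h2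
    refine ⟨⟨l, ?_⟩, Subtype.ext hl.symm⟩
    rintro rfl
    have h3 : I.1 = 0 := by
      rw [hl]
      exact mul_zero _
    exact I.2 h3

theorem sumZ_mul (P : ℝ) (c : ℂ) (F : Ideal (𝓞 K) → ℂ) :
    sumZ (K := K) P (fun n => c * F n) = c * sumZ (K := K) P F := by
  classical
  unfold sumZ
  rw [← tsum_mul_left]
  refine tsum_congr fun I => ?_
  rw [mul_ite, mul_zero]

end

open scoped Classical in
theorem pf_IN1C (h1 : T_GSC) (h2 : T_JIC) (h3 : T_IDZ) (h4 : Pool.Agent.H33.HH.T_IDF) :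
    T_IN1C := by
  intro K _ _ _ P G H θ e C₀ ε hSP hG hH hp hC₀ hε
  obtain ⟨hGs, hGk⟩ := h1 G hG
  obtain ⟨hJs, hJk⟩ := h2 G H hG hH
  choose CG hCG0 hCG using hGk
  choose CJ hCJ0 hCJ using hJk
  have he := hp.epos
  have hθ := hp.θpos
  have hle := hp.le
  obtain ⟨C1, hC1, hidz⟩ := h3 K P 12 (4 * C₀) hSP (by norm_num) (by positivity)
  obtain ⟨D, hD1, -, hD⟩ := (Pool.Agent.H86.CV.pf_DV K).1 (ε / 2) (by positivity)
  obtain ⟨a, ha⟩ : ∃ a : ℝ, a = CG 0 + CG 1 + CG 2 + CG 3 := ⟨_, rfl⟩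
  obtain ⟨c, hc⟩ : ∃ c : ℝ, c = CJ 0 + CJ 1 + CJ 2 + CJ 3 := ⟨_, rfl⟩
  have ha0 : 0 ≤ a := by
    rw [ha]
    linarith [hCG0 0, hCG0 1, hCG0 2, hCG0 3]
  have hc0 : 0 ≤ c := by
    rw [hc]
    linarith [hCJ0 0, hCJ0 1, hCJ0 2, hCJ0 3]
  have haj : ∀ s : ℂ, Nr s → ∀ j ≤ 3, ∀ v, ‖iteratedDeriv j (Gs G s) v‖ ≤ a := by
    intro s hs j hj v
    refine (hCG j s hs v).trans ?_
    rw [ha]
    have := hCG0 0
    have := hCG0 1
    have := hCG0 2
    have := hCG0 3
    interval_cases j <;> linarith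
  have hcj : ∀ s : ℂ, Nr s → ∀ j ≤ 3, ∀ v, ‖iteratedDeriv j (Jx G H s) v‖ ≤ c := by
    intro s hs j hj v
    refine (hCJ j s hs v).trans ?_
    rw [hc]
    have := hCJ0 0
    have := hCJ0 1
    have := hCJ0 2
    have := hCJ0 3
    interval_cases j <;> linarith
  obtain ⟨M, hM⟩ : ∃ M : ℝ, M = 2 ^ 3 * (a * c) := ⟨_, rfl⟩
  have hM0 : 0 ≤ M := by rw [hM]; positivity
  obtain ⟨E, hE⟩ : ∃ E : ℝ, E = Real.exp (4 * C₀) * (C1 * M) := ⟨_, rfl⟩
  have hE0 : 0 ≤ E := by rw [hE]; positivity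
  refine ⟨D ^ 2 * E, Real.exp (32 * C₀ + 1), by positivity, ?_, ?_⟩
  · exact Real.one_le_exp (by positivity)
  intro Q hQ₁ S hS T hT α β u hAd
  have hlogQ : 32 * C₀ + 1 ≤ Real.log Q := by
    rw [Real.le_log_iff_exp_le ((Real.exp_pos _).trans_le hQ₁)]
    exact hQ₁
  have hQ : 1 ≤ Q := (Real.one_le_exp (by positivity)).trans hQ₁
  have hlog0 : 0 < Real.log Q := by linarith
  have hQ0 : 0 < Q := by linarith
  obtain ⟨w, hw⟩ : ∃ w : ℂ, w = α + β := ⟨_, rfl⟩
  obtain ⟨s1, hs1⟩ : ∃ s1 : ℂ, s1 = se α u := ⟨_, rfl⟩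
  obtain ⟨s2, hs2⟩ : ∃ s2 : ℂ, s2 = se β (-u) := ⟨_, rfl⟩
  have hα : ‖α‖ ≤ 1 / 32 := by
    refine hAd.1.trans ?_
    rw [div_le_iff₀ hlog0]
    linarith
  have hβ : ‖β‖ ≤ 1 / 32 := by
    refine hAd.2.trans ?_
    rw [div_le_iff₀ hlog0]
    linarith
  have hnr : ∀ (γ : ℂ) (v : ℝ), ‖γ‖ ≤ 1 / 32 → Nr (se γ v) := by
    intro γ v hγ
    unfold Nr se
    have h5 : ((1 : ℂ) / 2 + γ + v * I).re - 1 / 2 = γ.re := by
      simp
    rw [h5]
    exact (abs_re_le_norm γ).trans (hγ.trans (by norm_num))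
  have hn1 : Nr s1 := hs1 ▸ hnr α u hα
  have hn2 : Nr s2 := hs2 ▸ hnr β (-u) hβ
  have hwn : ‖w‖ ≤ 1 / 16 := by
    rw [hw]
    refine (norm_add_le _ _).trans ?_
    linarith
  have hwl : ‖w‖ * Real.log Q ≤ 2 * C₀ := by
    rw [hw]
    have h5 : ‖α + β‖ ≤ C₀ / Real.log Q + C₀ / Real.log Q :=
      (norm_add_le _ _).trans (add_le_add hAd.1 hAd.2)
    calc ‖α + β‖ * Real.log Q ≤ (C₀ / Real.log Q + C₀ / Real.log Q) * Real.log Q :=
          mul_le_mul_of_nonneg_right h5 hlog0.le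
      _ = 2 * C₀ := by
          field_simp
          ring
  rw [← hw, ← hs1, ← hs2]
  have hy : 1 ≤ Q ^ θ := Real.one_le_rpow hQ hθ.le
  obtain ⟨hSne, -, hnmS, hS1, hSy, hpfS, -, -⟩ := h4 K P (Q ^ θ) hy S hS
  obtain ⟨hTne, -, -, hT1, hTy, hpfT, -, -⟩ := h4 K P (Q ^ θ) hy T hT
  obtain ⟨Z, hZd⟩ : ∃ Z : ℝ, Z = Q ^ (1 + e) := ⟨_, rfl⟩
  rw [← hZd]
  have hZ : 0 < Z := by rw [hZd]; exact Real.rpow_pos_of_pos hQ0 _
  have hlogZ : Real.log Z ≤ 2 * Real.log Q := by
    rw [hZd, Real.log_rpow hQ0]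
    nlinarith
  have hZy : Q ^ θ ≤ Z := by
    rw [hZd]
    exact Real.rpow_le_rpow_of_exponent_le hQ (by linarith)
  have hwZ : ‖w‖ * Real.log Z ≤ 4 * C₀ := by
    have h5 := mul_le_mul_of_nonneg_left hlogZ (norm_nonneg w)
    linarith
  have hy0 : 0 < Q ^ θ := by linarith
  have hS0 : 0 < nS np S := by linarith
  have hT0 : 0 < nS np T := by linarith
  obtain ⟨r, hr⟩ : ∃ r : ℝ, r = nS np T / nS np S := ⟨_, rfl⟩
  have hr0 : 0 < r := by rw [hr]; positivity
  obtain ⟨I0, hI0⟩ : ∃ I0 : ℂ, I0 = ∫ t in Set.Ioi (0 : ℝ), (t : ℂ) ^ (-w) *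
    (Gs G s2 t * Jx G H s1 (r * t)) := ⟨_, rfl⟩
  have hI1 : ∫ t in Set.Ioi (0 : ℝ), (t : ℂ) ^ (-w) * (Gs G s2 t *
      Jc G H s1 (nS np T / nS np S * t)) = I0 := by
    rw [hI0, ← hr]
    refine setIntegral_congr_fun measurableSet_Ioi fun t ht => ?_
    show (t : ℂ) ^ (-w) * (Gs G s2 t * Jc G H s1 (r * t)) = _
    rw [(hJs s1 hn1).2.2 _ (mul_pos hr0 ht)]
  rw [hI1]
  obtain ⟨m, hm⟩ : ∃ m : ℝ, m = max 1 r := ⟨_, rfl⟩
  have hm1 : 1 ≤ m := hm ▸ le_max_left _ _
  have hmr : r ≤ m := hm ▸ le_max_right _ _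
  have hm0 : 0 < m := by linarith
  have hmy : m ≤ Q ^ θ := by
    rw [hm]
    refine max_le hy ?_
    rw [hr]
    refine le_trans ?_ hTy
    exact div_le_self hT0.le hS1
  have hZm : 1 ≤ Z / m := by
    rw [le_div_iff₀ hm0, one_mul]
    exact hmy.trans hZy
  have hZmle : Z / m ≤ Z := div_le_self hZ.le hm1
  have hZw : ‖((Z / m : ℝ) : ℂ) ^ (-w)‖ ≤ Real.exp (4 * C₀) := by
    rw [norm_cpow_eq_rpow_re_of_pos (by linarith), Real.rpow_def_of_pos (by linarith)]
    apply Real.exp_le_exp.2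
    have h5 : 0 ≤ Real.log (Z / m) := Real.log_nonneg hZm
    have h6 : Real.log (Z / m) ≤ Real.log Z := Real.log_le_log (by linarith) hZmle
    have h7 : (-w).re ≤ ‖w‖ := by
      have := abs_re_le_norm w
      rw [neg_re]
      linarith [(abs_le.1 this).1]
    calc Real.log (Z / m) * (-w).re ≤ Real.log (Z / m) * ‖w‖ :=
          mul_le_mul_of_nonneg_left h7 h5
      _ ≤ Real.log Z * ‖w‖ := mul_le_mul_of_nonneg_right h6 (norm_nonneg _)
      _ ≤ 4 * C₀ := by linarith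
  obtain ⟨F, hF⟩ : ∃ F : ℝ → ℂ, F = fun x => ((x : ℝ) : ℂ) ^ (-w) *
    (Gs G s2 (x / Z) * Jx G H s1 (r * x / Z)) := ⟨_, rfl⟩
  have key : ∀ g ∈ (S \ T).powerset,
      ‖sumZ (K := K) P (fun n => F (nS np g * nm n)) -
        ((rk K P * (nS np g)⁻¹ : ℝ) : ℂ) * (Z : ℂ) ^ (1 - w) * I0‖ ≤ E := by
    intro g hg
    have hgS : g ⊆ S := (Finset.mem_powerset.1 hg).trans Finset.sdiff_subset
    have hg1 : 1 ≤ nS np g := Pool.Agent.H44.HH.nS_one_le g
    have hg0 : 0 < nS np g := by linarith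
    have hgS' : nS np g ≤ nS np S := Pool.Agent.H44.HH.nS_mono hgS
    have hgm : nS np g * m ≤ Q ^ θ := by
      rcases le_total r 1 with hr1 | hr1
      · rw [hm, max_eq_left hr1, mul_one]
        exact hgS'.trans hSy
      · rw [hm, max_eq_right hr1]
        refine le_trans ?_ hTy
        rw [hr, mul_div_assoc', div_le_iff₀ hS0]
        nlinarith
    have hgm0 : 0 < nS np g * m := by positivity
    obtain ⟨T', hT'⟩ : ∃ T' : ℝ, T' = Z / (nS np g * m) := ⟨_, rfl⟩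
    have hT'1 : 1 ≤ T' := by
      rw [hT', le_div_iff₀ hgm0, one_mul]
      exact hgm.trans hZy
    have hT'0 : 0 < T' := by linarith
    have hT'Z : T' ≤ Z := by
      rw [hT']
      refine div_le_self hZ.le ?_
      nlinarith
    obtain ⟨f, hf⟩ : ∃ f : ℝ → ℂ, f = fun v => Gs G s2 (1 / m * v) * Jx G H s1 (r / m * v) :=
      ⟨_, rfl⟩
    have hrm : r / m ≤ 1 := by
      rw [div_le_one hm0]
      exact hmr
    have h1m : 1 / m ≤ 1 := by
      rw [div_le_one hm0]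
      exact hm1
    have hfs : ContDiff ℝ ∞ f := by
      rw [hf]
      exact ((hGs s2 hn2).1.comp (contDiff_const.mul contDiff_id)).mul
        ((hJs s1 hn1).1.comp (contDiff_const.mul contDiff_id))
    have hf12 : ∀ v, 12 ≤ v → f v = 0 := by
      intro v hv
      rw [hf]
      simp only
      rcases le_total r 1 with hr1 | hr1
      · have h5 : m = 1 := by rw [hm, max_eq_left hr1]
        rw [h5, (hGs s2 hn2).2.2.1 (1 / 1 * v) (by linarith), zero_mul]
      · have h5 : m = r := by rw [hm, max_eq_right hr1]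
        rw [h5, div_self hr0.ne', (hJs s1 hn1).2.1 (1 * v) (by linarith), mul_zero]
    have h8 := hidz f M T' w hfs hf12 (by
      intro j hj v _
      rw [hf, hM]
      exact unifC (Gs G s2) (Jx G H s1) (hGs s2 hn2).1 (hJs s1 hn1).1 a c 3 ha0 (haj s2 hn2)
        (hcj s1 hn1) (1 / m) (r / m) (by positivity) h1m (by positivity) hrm j hj v) hT'1 hwn (by
      refine le_trans ?_ hwZ
      exact mul_le_mul_of_nonneg_left (Real.log_le_log hT'0 hT'Z) (norm_nonneg w))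
    -- the sum
    have h9 : sumZ (K := K) P (fun n => F (nS np g * nm n)) = ((Z / m : ℝ) : ℂ) ^ (-w) *
        sumZ (K := K) P (fun n => ((nm n / T' : ℝ) : ℂ) ^ (-w) * f (nm n / T')) := by
      rw [← sumZ_mul]
      congr 1
      funext n
      have hn0 : 0 ≤ nm n := Nat.cast_nonneg _
      have h10 : nS np g * nm n = Z / m * (nm n / T') := by
        rw [hT']
        field_simp
      rw [hF, hf]
      simp only
      have h11 : 1 / m * (nm n / T') = nS np g * nm n / Z := by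
        rw [hT']
        field_simp
      have h12 : r / m * (nm n / T') = r * (nS np g * nm n) / Z := by
        rw [hT']
        field_simp
      rw [h11, h12]
      have h13 : ((nS np g * nm n : ℝ) : ℂ) ^ (-w) =
          ((Z / m : ℝ) : ℂ) ^ (-w) * ((nm n / T' : ℝ) : ℂ) ^ (-w) := by
        rw [h10, ofReal_mul, mul_cpow_ofReal_nonneg (by positivity) (by positivity)]
      rw [h13]
      ring
    -- the integral
    have h14 : ∫ v in Set.Ioi (0 : ℝ), (v : ℂ) ^ (-w) * f v = (m : ℂ) * ((m : ℂ) ^ (-w) * I0) := by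
      have h15 := integral_comp_mul_left_Ioi (fun v : ℝ => (v : ℂ) ^ (-w) * f v) 0 hm0
      rw [mul_zero] at h15
      have h16 : ∫ x in Set.Ioi (0 : ℝ), ((m * x : ℝ) : ℂ) ^ (-w) * f (m * x) =
          (m : ℂ) ^ (-w) * I0 := by
        rw [hI0, ← integral_const_mul]
        refine setIntegral_congr_fun measurableSet_Ioi fun x hx => ?_
        have hx0 : (0 : ℝ) < x := hx
        show ((m * x : ℝ) : ℂ) ^ (-w) * f (m * x) = _
        rw [ofReal_mul, mul_cpow_ofReal_nonneg hm0.le hx0.le, hf]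
        simp only
        have h17 : 1 / m * (m * x) = x := by field_simp
        have h18 : r / m * (m * x) = r * x := by field_simp
        rw [h17, h18]
        ring
      rw [h16, real_smul, ofReal_inv] at h15
      have hmc : (m : ℂ) ≠ 0 := ofReal_ne_zero.2 hm0.ne'
      rw [h15, mul_inv_cancel_left₀ hmc]
    have h19 : ((rk K P * (nS np g)⁻¹ : ℝ) : ℂ) * (Z : ℂ) ^ (1 - w) * I0 =
        ((Z / m : ℝ) : ℂ) ^ (-w) * (((rk K P * T' : ℝ) : ℂ) *
          ∫ v in Set.Ioi (0 : ℝ), (v : ℂ) ^ (-w) * f v) := by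
      rw [h14]
      have h20 : (Z : ℂ) ^ (1 - w) = (Z : ℂ) * (((Z / m : ℝ) : ℂ) ^ (-w) * (m : ℂ) ^ (-w)) := by
        rw [← mul_cpow_ofReal_nonneg (by positivity) hm0.le, ← ofReal_mul,
          div_mul_cancel₀ _ hm0.ne', sub_eq_add_neg,
          cpow_add _ _ (ofReal_ne_zero.2 hZ.ne'), cpow_one]
      rw [h20, hT']
      have hmc : (m : ℂ) ≠ 0 := ofReal_ne_zero.2 hm0.ne'
      have hgc : ((nS np g : ℝ) : ℂ) ≠ 0 := ofReal_ne_zero.2 hg0.ne'
      push_cast
      field_simp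
    rw [h9, h19, ← mul_sub, norm_mul, hE]
    exact mul_le_mul hZw h8 (norm_nonneg _) (Real.exp_pos _).le
  -- the expansion
  have hTm : ∀ p : PrI K, idS T ≤ p.1 ↔ p ∈ T := by
    intro p
    rw [← Pool.Agent.H3.CV.mem_pf hTne p, hpfT]
  obtain ⟨c1, hc1⟩ : ∃ c1 : ℝ, c1 = ∏ p ∈ S ∩ T, (2 - 1 / np p) := ⟨_, rfl⟩
  obtain ⟨cg, hcg⟩ : ∃ cg : Finset (PrI K) → ℝ, cg = fun g => ∏ p ∈ (S \ T) \ g, (1 - 1 / np p) :=
    ⟨_, rfl⟩
  have hsum : sumZ (K := K) P (fun n => ((nm n : ℝ) : ℂ) ^ (-w) * (Gs G s2 (nm n / Z) *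
      Jc G H s1 (nS np T * nm n / (nS np S * Z))) *
      ((∏ p ∈ S, ((if idS T * n ≤ p.1 then 1 else 0) + 1 - 1 / np p) : ℝ) : ℂ)) =
      ∑ g ∈ (S \ T).powerset, ((c1 * cg g : ℝ) : ℂ) *
        sumZ (K := K) P (fun n => F (nS np g * nm n)) := by
    have hfin : ∀ g : Finset (PrI K), (Function.support fun I : NI K =>
        if Cp P I.1 then (if idS g ∣ I.1 then F (nm I.1) else 0) else 0).Finite := by
      intro g
      refine (Pool.Agent.H44.HH.fin_NI (K := K) (6 * Z)).subset fun I hI => ?_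
      show nm I.1 ≤ 6 * Z
      by_contra h
      push Not at h
      refine hI ?_
      have h5 : 6 ≤ nm I.1 / Z := by
        rw [le_div_iff₀ hZ]
        exact h.le
      have h6 : F (nm I.1) = 0 := by
        rw [hF]
        simp only
        rw [(hGs s2 hn2).2.2.1 _ h5, zero_mul, mul_zero]
      simp only [h6, ite_self]
    have hterm : ∀ I : NI K, (if Cp P I.1 then ((nm I.1 : ℝ) : ℂ) ^ (-w) * (Gs G s2 (nm I.1 / Z) *
        Jc G H s1 (nS np T * nm I.1 / (nS np S * Z))) *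
        ((∏ p ∈ S, ((if idS T * I.1 ≤ p.1 then 1 else 0) + 1 - 1 / np p) : ℝ) : ℂ) else 0) =
        ∑ g ∈ (S \ T).powerset, ((c1 * cg g : ℝ) : ℂ) * (if Cp P I.1 then
          (if idS g ∣ I.1 then F (nm I.1) else 0) else 0) := by
      intro I
      by_cases hC : Cp P I.1
      · simp only [if_pos hC]
        have hnI := Pool.Agent.H96.CV.nm_pos I.2
        have h5 : nS np T * nm I.1 / (nS np S * Z) = r * nm I.1 / Z := by
          rw [hr]
          field_simp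
        rw [Pool.Agent.H51.HH.loc S T I.1 hTm, h5, (hJs s1 hn1).2.2 _ (by positivity), ← hc1,
          hcg, ofReal_mul, ofReal_sum, Finset.mul_sum, Finset.mul_sum]
        refine Finset.sum_congr rfl fun g _ => ?_
        rw [hF]
        simp only
        split_ifs
        · push_cast
          ring
        · push_cast
          ring
      · simp only [if_neg hC, mul_zero, Finset.sum_const_zero]
    unfold sumZ
    rw [tsum_congr hterm]
    rw [Summable.tsum_finsetSum fun g _ => (summable_of_hasFiniteSupport (hfin g)).mul_left _]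
    refine Finset.sum_congr rfl fun g hg => ?_
    rw [tsum_mul_left]
    congr 1
    have hgS : g ⊆ S := (Finset.mem_powerset.1 hg).trans Finset.sdiff_subset
    have hgD : g ∈ DP K P (Q ^ θ) := by
      rw [Pool.Agent.H57.HH.mem_DP] at hS ⊢
      exact ⟨fun p hp => hS.1 p (hgS hp), (Pool.Agent.H44.HH.nS_mono hgS).trans hS.2⟩
    have hgC := (h4 K P (Q ^ θ) hy g hgD).2.1
    have h6 := sumZ_idS P g hgC F
    unfold sumZ at h6
    exact h6
  have hmain : ((rk K P * ∏ p ∈ S ∩ T, (2 - 1 / np p) : ℝ) : ℂ) * (Z : ℂ) ^ (1 - w) * I0 =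
      ∑ g ∈ (S \ T).powerset, ((c1 * cg g : ℝ) : ℂ) *
        (((rk K P * (nS np g)⁻¹ : ℝ) : ℂ) * (Z : ℂ) ^ (1 - w) * I0) := by
    have h5 := Pool.Agent.H51.HH.dens (S \ T)
    have h6 : ∑ g ∈ (S \ T).powerset, ((c1 * cg g : ℝ) : ℂ) *
        (((rk K P * (nS np g)⁻¹ : ℝ) : ℂ) * (Z : ℂ) ^ (1 - w) * I0) =
        ((c1 * rk K P * ∑ g ∈ (S \ T).powerset, cg g * (nS np g)⁻¹ : ℝ) : ℂ) *
          (Z : ℂ) ^ (1 - w) * I0 := by
      rw [ofReal_mul, ofReal_sum, Finset.mul_sum, Finset.sum_mul, Finset.sum_mul]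
      refine Finset.sum_congr rfl fun g _ => ?_
      push_cast
      ring
    rw [h6, hcg, h5, ← hc1]
    push_cast
    ring
  rw [hsum, hmain, ← Finset.sum_sub_distrib]
  refine (norm_sum_le _ _).trans ?_
  have hinv : ∀ p : PrI K, 0 ≤ 1 / np p ∧ 1 / np p ≤ 1 := fun p => by
    have := Pool.Agent.H96.CV.two_le_np p
    have h5 := Pool.Agent.H96.CV.np_pos p
    refine ⟨by positivity, ?_⟩
    rw [div_le_one h5]
    linarith
  have hc1b : 0 ≤ c1 ∧ c1 ≤ 2 ^ S.card := by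
    constructor
    · rw [hc1]
      refine Finset.prod_nonneg fun p _ => ?_
      have := hinv p
      linarith [this.2]
    · rw [hc1]
      calc ∏ p ∈ S ∩ T, (2 - 1 / np p) ≤ ∏ p ∈ S ∩ T, (2 : ℝ) :=
            Finset.prod_le_prod (fun p _ => by linarith [(hinv p).2])
              fun p _ => by linarith [(hinv p).1]
        _ = 2 ^ (S ∩ T).card := by rw [Finset.prod_const]
        _ ≤ 2 ^ S.card := by
            refine pow_le_pow_right₀ (by norm_num) (Finset.card_le_card Finset.inter_subset_left)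
  have hcgb : ∀ g, 0 ≤ cg g ∧ cg g ≤ 1 := by
    intro g
    rw [hcg]
    constructor
    · exact Finset.prod_nonneg fun p _ => by linarith [(hinv p).2]
    · exact Finset.prod_le_one (fun p _ => by linarith [(hinv p).2])
        fun p _ => by linarith [(hinv p).1]
  have h2S : (2 : ℝ) ^ S.card ≤ D * Q ^ (ε / 2) := by
    have h5 := hD (idS S) hSne
    rw [hpfS, hnmS] at h5
    refine h5.trans ?_
    have h6 : nS np S ≤ Q := by
      refine hSy.trans ?_
      calc Q ^ θ ≤ Q ^ (1 : ℝ) := Real.rpow_le_rpow_of_exponent_le hQ (by linarith)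
        _ = Q := Real.rpow_one Q
    gcongr
  calc ∑ g ∈ (S \ T).powerset, ‖((c1 * cg g : ℝ) : ℂ) *
        sumZ (K := K) P (fun n => F (nS np g * nm n)) -
        ((c1 * cg g : ℝ) : ℂ) * (((rk K P * (nS np g)⁻¹ : ℝ) : ℂ) * (Z : ℂ) ^ (1 - w) * I0)‖
      ≤ ∑ g ∈ (S \ T).powerset, 2 ^ S.card * E := by
        refine Finset.sum_le_sum fun g hg => ?_
        rw [← mul_sub, norm_mul]
        refine mul_le_mul ?_ (key g hg) (norm_nonneg _) (by positivity)
        rw [norm_real, Real.norm_eq_abs, abs_of_nonneg (mul_nonneg hc1b.1 (hcgb g).1)]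
        calc c1 * cg g ≤ 2 ^ S.card * 1 :=
              mul_le_mul hc1b.2 (hcgb g).2 (hcgb g).1 (by positivity)
          _ = 2 ^ S.card := mul_one _
    _ = 2 ^ (S \ T).card * (2 ^ S.card * E) := by
        rw [Finset.sum_const, Finset.card_powerset, nsmul_eq_mul]
        push_cast
        ring
    _ ≤ (D * Q ^ (ε / 2)) * ((D * Q ^ (ε / 2)) * E) := by
        have h5 : (2 : ℝ) ^ (S \ T).card ≤ D * Q ^ (ε / 2) :=
          (pow_le_pow_right₀ (by norm_num) (Finset.card_le_card Finset.sdiff_subset)).trans h2S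
        gcongr
    _ = D ^ 2 * E * (Q ^ (ε / 2) * Q ^ (ε / 2)) := by ring
    _ = D ^ 2 * E * Q ^ ε := by
        rw [← Real.rpow_add hQ0]
        congr 2
        ring

end Pool.Agent.H20.HC
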