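import Pool.Agent.H44.HC.Targets

/-! Ramsey's theorem with the binomial bound. -/

set_option autoImplicit false

namespace Pool.Agent.H20.HC

open Finset Pool.Agent.H44.HC

theorem ram : T_RAM := by
  intro V _ G
  have key : ∀ n a b : ℕ, a + b = n → ∀ A : Finset V, (a + b).choose a ≤ A.card →
      (∃ T ⊆ A, T.card = a + 1 ∧ (T : Set V).Pairwise (fun x y => ¬ G.Adj x y)) ∨
      (∃ K ⊆ A, K.card = b + 1 ∧ (K : Set V).Pairwise (fun x y => G.Adj x y)) := by
    intro n
    induction n with
    | zero =>
      intro a b hab A hA
      have ha : a = 0 := by omega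
      have hb : b = 0 := by omega
      subst ha; subst hb
      have h1 : 1 ≤ A.card := by simpa using hA
      obtain ⟨x, hx⟩ := Finset.card_pos.1 h1
      refine Or.inl ⟨{x}, by simpa using hx, by simp, ?_⟩
      simp
    | succ n ih =>
      intro a b hab A hA
      have hpos : 1 ≤ A.card := le_trans (Nat.choose_pos (Nat.le_add_right a b)) hA
      obtain ⟨v, hv⟩ := Finset.card_pos.1 hpos
      rcases Nat.eq_zero_or_pos a with ha | ha
      · subst ha
        refine Or.inl ⟨{v}, by simpa using hv, by simp, ?_⟩
        simp
      rcases Nat.eq_zero_or_pos b with hb | hb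
      · subst hb
        refine Or.inr ⟨{v}, by simpa using hv, by simp, ?_⟩
        simp
      obtain ⟨a', rfl⟩ : ∃ a', a = a' + 1 := ⟨a - 1, by omega⟩
      obtain ⟨b', rfl⟩ : ∃ b', b = b' + 1 := ⟨b - 1, by omega⟩
      classical
      set N1 : Finset V := (A.erase v).filter (fun w => G.Adj v w) with hN1
      set N0 : Finset V := (A.erase v).filter (fun w => ¬ G.Adj v w) with hN0
      have hcard : N1.card + N0.card = A.card - 1 := by
        rw [hN1, hN0, Finset.card_filter_add_card_filter_not, Finset.card_erase_of_mem hv]
      have hch : (a' + 1 + (b' + 1)).choose (a' + 1) =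
          (a' + (b' + 1)).choose a' + (a' + 1 + b').choose (a' + 1) := by
        have e1 : a' + 1 + (b' + 1) = (a' + (b' + 1)) + 1 := by ring
        have e2 : a' + 1 + b' = a' + (b' + 1) := by ring
        rw [e1, Nat.choose_succ_succ, e2]
      have hor : (a' + (b' + 1)).choose a' ≤ N0.card ∨ (a' + 1 + b').choose (a' + 1) ≤ N1.card := by
        have hp1 : 1 ≤ (a' + (b' + 1)).choose a' := Nat.choose_pos (Nat.le_add_right _ _)
        have hp2 : 1 ≤ (a' + 1 + b').choose (a' + 1) := Nat.choose_pos (Nat.le_add_right _ _)
        omega
      rcases hor with h | h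
      · rcases ih a' (b' + 1) (by omega) N0 h with ⟨T, hT, hTc, hTp⟩ | ⟨K, hK, hKc, hKp⟩
        · have hvT : v ∉ T := fun hh => by
            have := hT hh
            rw [hN0, Finset.mem_filter] at this
            exact (Finset.mem_erase.1 this.1).1 rfl
          refine Or.inl ⟨insert v T, ?_, ?_, ?_⟩
          · intro x hx
            rcases Finset.mem_insert.1 hx with rfl | hx
            · exact hv
            · have := hT hx
              rw [hN0, Finset.mem_filter] at this
              exact Finset.mem_of_mem_erase this.1
          · rw [Finset.card_insert_of_notMem hvT, hTc]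
          · rw [Finset.coe_insert]
            refine Set.pairwise_insert.2 ⟨hTp, ?_⟩
            intro y hy _
            have := hT hy
            rw [hN0, Finset.mem_filter] at this
            exact ⟨this.2, fun h => this.2 h.symm⟩
        · refine Or.inr ⟨K, ?_, hKc, hKp⟩
          intro x hx
          have := hK hx
          rw [hN0, Finset.mem_filter] at this
          exact Finset.mem_of_mem_erase this.1
      · rcases ih (a' + 1) b' (by omega) N1 h with ⟨T, hT, hTc, hTp⟩ | ⟨K, hK, hKc, hKp⟩
        · refine Or.inl ⟨T, ?_, hTc, hTp⟩
          intro x hx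
          have := hT hx
          rw [hN1, Finset.mem_filter] at this
          exact Finset.mem_of_mem_erase this.1
        · have hvK : v ∉ K := fun hh => by
            have := hK hh
            rw [hN1, Finset.mem_filter] at this
            exact (Finset.mem_erase.1 this.1).1 rfl
          refine Or.inr ⟨insert v K, ?_, ?_, ?_⟩
          · intro x hx
            rcases Finset.mem_insert.1 hx with rfl | hx
            · exact hv
            · have := hK hx
              rw [hN1, Finset.mem_filter] at this
              exact Finset.mem_of_mem_erase this.1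
          · rw [Finset.card_insert_of_notMem hvK, hKc]
          · rw [Finset.coe_insert]
            refine Set.pairwise_insert.2 ⟨hKp, ?_⟩
            intro y hy _
            have := hK hy
            rw [hN1, Finset.mem_filter] at this
            exact ⟨this.2, this.2.symm⟩
  intro a b A hA
  exact key (a + b) a b rfl A hA

end Pool.Agent.H20.HC
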